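import Pool.Agent.R128.KIrrEmb

set_option autoImplicit false

/-!
# Every finite poset embeds in a `k`-irreducible poset of larger `k`-dimension (MP_6e33d6_co)

`Emb k n P` : the poset `P` embeds in the power `k ^ n` of the chain with `k` elements.
`kdim k P` : the `k`-dimension, the least `n` with `Emb k n P`.
`IsIrred k Q` : `Q` is `k`-irreducible, i.e. deleting any element lowers the `k`-dimension.
-/

namespace Pool.Agent.Results.MP_6e33d6_co.EmbedsInIrreducible

open Pool.Agent.R128.KIrrEmb

/-- For every `k ≥ 2`, every finite poset `P` embeds in a finite `k`-irreducible poset `Q` whose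
`k`-dimension is larger than the one of `P`. -/
theorem result (k : ℕ) (hk : 2 ≤ k) (P : Type) [PartialOrder P] [Finite P] :
    ∃ (Q : Type) (_ : PartialOrder Q) (_ : Finite Q),
      IsIrred k Q ∧ Nonempty (P ↪o Q) ∧ kdim k P < kdim k Q := by
  rcases isEmpty_or_nonempty P with hP | hP
  · obtain ⟨Q, i1, i2, h1, ⟨φ⟩, h2⟩ := main_nonempty k hk Unit
    refine ⟨Q, i1, i2, h1, ⟨OrderEmbedding.ofMapLEIff (fun x : P => (hP.false x).elim)
      (fun x => (hP.false x).elim)⟩, ?_⟩
    have h3 : kdim k P ≤ 0 := kdim_le ⟨OrderEmbedding.ofMapLEIff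
      (fun x : P => (hP.false x).elim) (fun x => (hP.false x).elim)⟩
    omega
  · exact main_nonempty k hk P

end Pool.Agent.Results.MP_6e33d6_co.EmbedsInIrreducible
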